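import Pool.Agent.H66.FA.T

/-! MP_f6facd_gt, fab_modules: the norm depends only on the first coordinate (ISR). -/

set_option autoImplicit false

open Matrix

namespace Pool.Agent.H85.FA

open Pool.Agent.H66.FA Pool.Agent.H63.Fins MeasureTheory Filter Topology

section

variable {m : ℕ} {B : V (m + 1) →L[ℝ] V (m + 1)} {E : ℝ → V (m + 1) →L[ℝ] V (m + 1)}

theorem isE_inv (h : IsE B E) (s : ℝ) (y : V (m + 1)) : E s (E (-s) y) = y := by
  rw [← h.add, add_neg_cancel, h.zero]

theorem isE_inv' (h : IsE B E) (s : ℝ) (y : V (m + 1)) : E (-s) (E s y) = y := by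
  rw [← h.add, neg_add_cancel, h.zero]

theorem isE_ne (h : IsE B E) (s : ℝ) {y : V (m + 1)} (hy : y ≠ 0) : E s y ≠ 0 := by
  intro h1
  apply hy
  rw [← isE_inv' h s y, h1, map_zero]

theorem isE_det_pos (h : IsE B E) (s : ℝ) : 0 < (E s).det := by
  have h1 : E s = (E (s / 2)).comp (E (s / 2)) := by
    ext1 y
    rw [ContinuousLinearMap.comp_apply, ← h.add, add_halves]
  have h2 : (E s).det = (E (s / 2)).det * (E (s / 2)).det := by
    rw [h1]
    exact LinearMap.det_comp _ _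
  have h3 : (E s).det * (E (-s)).det = 1 := by
    have h4 : (E s).comp (E (-s)) = ContinuousLinearMap.id ℝ _ := by
      ext1 y
      rw [ContinuousLinearMap.comp_apply, isE_inv h]
      rfl
    have h5 : ((E s).comp (E (-s))).det = (E s).det * (E (-s)).det := LinearMap.det_comp _ _
    rw [← h5, h4]
    exact LinearMap.det_id
  have h4 : (E s).det ≠ 0 := left_ne_zero_of_mul (by rw [h3]; exact one_ne_zero)
  rw [h2] at h4 ⊢
  exact lt_of_le_of_ne (mul_self_nonneg _) h4.symm

end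

/-- the second derivative of a composition with a linear map -/
theorem d2_comp {n : ℕ} {L : V n → ℝ} (hL : ContDiffOn ℝ (⊤ : ℕ∞) L {y | y ≠ 0})
    (M : V n →L[ℝ] V n) (hM : ∀ y, y ≠ 0 → M y ≠ 0) {y : V n} (hy : y ≠ 0) (u v : V n) :
    d2 (fun y => L (M y)) y u v = d2 L (M y) (M u) (M v) := by
  have hop : IsOpen {y : V n | y ≠ 0} := isOpen_ne
  have hLd : ∀ z : V n, z ≠ 0 → DifferentiableAt ℝ L z := fun z hz =>
    (hL.contDiffAt (hop.mem_nhds hz)).differentiableAt (by simp)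
  have h1 : ∀ z : V n, z ≠ 0 → fderiv ℝ (fun y => L (M y)) z = (fderiv ℝ L (M z)).comp M := by
    intro z hz
    have h2 : HasFDerivAt (fun y => L (M y)) ((fderiv ℝ L (M z)).comp M) z :=
      (hLd _ (hM z hz)).hasFDerivAt.comp z M.hasFDerivAt
    exact h2.fderiv
  have h2 : fderiv ℝ (fderiv ℝ fun y => L (M y)) y =
      fderiv ℝ (fun z => (fderiv ℝ L (M z)).comp M) y := by
    refine Filter.EventuallyEq.fderiv_eq ?_
    filter_upwards [hop.mem_nhds hy] with z hz using h1 z hz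
  have h3 : ContDiffOn ℝ (⊤ : ℕ∞) (fderiv ℝ L) {y | y ≠ 0} :=
    hL.fderiv_of_isOpen hop (by simp)
  have h4 : DifferentiableAt ℝ (fderiv ℝ L) (M y) :=
    (h3.contDiffAt (hop.mem_nhds (hM y hy))).differentiableAt (by simp)
  have h5 : HasFDerivAt (fun z => fderiv ℝ L (M z)) ((fderiv ℝ (fderiv ℝ L) (M y)).comp M) y :=
    h4.hasFDerivAt.comp y M.hasFDerivAt
  have h6 := h5.clm_comp (hasFDerivAt_const M y)
  unfold d2
  rw [h2, h6.fderiv]
  simp

theorem ee_expand {n : ℕ} (u : V n) : u = ∑ k, u k • (ee k : V n) := by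
  funext i
  simp [ee, Finset.sum_apply, Pi.single_apply]

theorem d2_expand {n : ℕ} (L : V n → ℝ) (z u v : V n) :
    d2 L z u v = ∑ k, ∑ l, u k * (v l * d2 L z (ee k) (ee l)) := by
  unfold d2
  conv_lhs => rw [ee_expand u, ee_expand v]
  simp only [map_sum, map_smul, _root_.sum_apply, _root_.smul_apply, smul_eq_mul, Finset.mul_sum]
  rw [Finset.sum_comm]
  refine Finset.sum_congr rfl fun k _ => Finset.sum_congr rfl fun l _ => ?_
  ring

theorem pf_ISR (h1 : T_ML) (_h2 : T_REG) : T_ISR := by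
  intro m B E F hE hF hinv
  have hML := h1 (m + 1) F hF
  refine ⟨⟨?_, ?_, ?_⟩, ?_⟩
  · intro x y
    rw [hinv x y]
    ring
  · have hs : ContDiffOn ℝ (⊤ : ℕ∞) (fun y => F 0 y ^ 2 / 2) {y | y ≠ 0} := (hML 0).1.smooth
    have hm : ContDiff ℝ (⊤ : ℕ∞) fun p : ℝ × V (m + 1) => E (-p.1) p.2 :=
      hE.smooth.comp (contDiff_fst.neg.prodMk contDiff_snd)
    have h3 := hs.comp (s := {p : ℝ × V (m + 1) | p.2 ≠ 0}) hm.contDiffOn fun p hp => isE_ne hE _ hp
    exact h3
  · intro x y hy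
    exact hF.posDef x (Set.mem_univ _) y hy
  · intro x y hy
    refine ⟨?_, isE_det_pos hE _⟩
    have e1 : (fun y => F x y ^ 2 / 2) =
        fun y => (fun y => F 0 y ^ 2 / 2) (E (-x 0) y) := by
      funext z
      rw [hinv x z]
    set L : V (m + 1) → ℝ := fun y => F 0 y ^ 2 / 2 with hL
    rw [e1]
    have hs : ContDiffOn ℝ (⊤ : ℕ∞) L {y | y ≠ 0} := (hML 0).1.smooth
    set M := E (-x 0) with hM
    have h3 : ∀ u v, d2 (fun y => L (M y)) y u v = d2 L (M y) (M u) (M v) := fun u v =>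
      d2_comp hs M (fun z hz => isE_ne hE _ hz) hy u v
    set N : Matrix (Fin (m + 1)) (Fin (m + 1)) ℝ :=
      LinearMap.toMatrix' (M : V (m + 1) →ₗ[ℝ] V (m + 1)) with hN
    have hNa : ∀ k i, N k i = M (ee i) k := by
      intro k i
      rw [hN, LinearMap.toMatrix'_apply]
      rfl
    have h4 : gm (fun y => L (M y)) y = Nᵀ * gm L (M y) * N := by
      funext i j
      have h5 : gm (fun y => L (M y)) y i j = d2 L (M y) (M (ee i)) (M (ee j)) := h3 _ _
      rw [h5, d2_expand, Matrix.mul_apply, Finset.sum_comm]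
      refine Finset.sum_congr rfl fun l _ => ?_
      rw [Matrix.mul_apply, Finset.sum_mul]
      refine Finset.sum_congr rfl fun k _ => ?_
      rw [Matrix.transpose_apply, hNa, hNa]
      unfold gm
      ring
    have h5 : M.det = N.det := by
      rw [hN, LinearMap.det_toMatrix']
    unfold DD
    rw [h4, Matrix.det_mul, Matrix.det_mul, Matrix.det_transpose, h5]
    ring

end Pool.Agent.H85.FA
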