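import Pool.Agent.H66.FA.T

/-! MP_f6facd_gt, fab_modules: the trace of the Riemann curvature (RD). -/

set_option autoImplicit false

open Matrix

namespace Pool.Agent.H85.FA

open Pool.Agent.H66.FA Pool.Agent.H63.Fins MeasureTheory Filter Topology

/-- the function depends on the position only through the first coordinate -/
def Dep {m : ℕ} (H : V (m + 1) → V (m + 1) → ℝ) : Prop :=
  ∀ x x' : V (m + 1), x 0 = x' 0 → H x = H x'

theorem dep_pdy {m : ℕ} {H : V (m + 1) → V (m + 1) → ℝ} (h : Dep H) (j : Fin (m + 1)) :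
    Dep (pdy j H) := by
  intro x x' hx
  funext y
  unfold pdy
  rw [h x x' hx]

theorem dep_pdx {m : ℕ} {H : V (m + 1) → V (m + 1) → ℝ} (h : Dep H) {k : Fin (m + 1)}
    (hk : k ≠ 0) (x y : V (m + 1)) : pdx k H x y = 0 := by
  unfold pdx
  have h1 : (fun t => H (Function.update x k t) y) = fun _ => H x y := by
    funext t
    rw [h (Function.update x k t) x (Function.update_of_ne hk.symm _ _)]
  rw [h1]
  exact deriv_const _ _

theorem dep_pdx0 {m : ℕ} {H : V (m + 1) → V (m + 1) → ℝ} (h : Dep H) (k : Fin (m + 1)) :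
    Dep (pdx k H) := by
  intro x x' hx
  funext y
  by_cases hk : k = 0
  · subst hk
    unfold pdx
    have h1 : (fun t => H (Function.update x 0 t) y) = fun t => H (Function.update x' 0 t) y := by
      funext t
      rw [h (Function.update x 0 t) (Function.update x' 0 t) (by simp)]
    rw [h1, hx]
  · rw [dep_pdx h hk, dep_pdx h hk]

theorem dep_sq {m : ℕ} {F : V (m + 1) → V (m + 1) → ℝ} {Λ : ℝ → V (m + 1) → ℝ} (h : IsR F Λ) :
    Dep fun x y => F x y ^ 2 := by
  intro x x' hx
  funext y
  simp only [h.eq, hx]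

theorem dep_fund {m : ℕ} {F : V (m + 1) → V (m + 1) → ℝ} {Λ : ℝ → V (m + 1) → ℝ} (h : IsR F Λ)
    (x x' : V (m + 1)) (hx : x 0 = x' 0) : fund F x = fund F x' := by
  funext y i j
  unfold fund
  rw [dep_pdy (dep_pdy (dep_sq h) j) i x x' hx]

theorem dep_spray {m : ℕ} {F : V (m + 1) → V (m + 1) → ℝ} {Λ : ℝ → V (m + 1) → ℝ} (h : IsR F Λ)
    (i : Fin (m + 1)) : Dep fun x y => spray F x y i := by
  intro x x' hx
  funext y
  simp only [spray]
  rw [dep_fund h x x' hx]
  congr 1
  refine Finset.sum_congr rfl fun l _ => ?_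
  congr 1
  rw [dep_pdx0 (dep_sq h) l x x' hx]
  congr 1
  refine Finset.sum_congr rfl fun k _ => ?_
  rw [dep_pdx0 (dep_pdy (dep_sq h) l) k x x' hx]

theorem pf_RD (h2 : T_RA) : T_RD := by
  intro m F Λ h v hv hv0 hd
  have hspr : ∀ i, spray F 0 v i = 0 := by
    intro i
    rw [h2 m F Λ h 0 v i hv]
    have h1 : pdx 0 (fun x y : V (m + 1) => Λ (x 0) y) 0 v = 0 := by
      unfold pdx
      have h3 : (fun t => Λ ((Function.update (0 : V (m + 1)) 0 t) 0) v) = fun t => Λ t v := by
        funext t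
        simp
      rw [h3]
      exact hd
    rw [h1, hv0]
    simp
  unfold ricci Matrix.trace
  have h4 : ∀ i, (riem F 0 v).diag i = 2 * pdx i (fun x y => spray F x y i) 0 v -
      ∑ j, pdy j (fun x y => spray F x y i) 0 v * pdy i (fun x y => spray F x y j) 0 v := by
    intro i
    rw [Matrix.diag_apply]
    unfold riem
    have e1 : ∑ j, v j * pdx j (pdy i (fun x y => spray F x y i)) 0 v = 0 := by
      refine Finset.sum_eq_zero fun j _ => ?_
      by_cases hj : j = 0
      · rw [hj, hv0, zero_mul]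
      · rw [dep_pdx (dep_pdy (dep_spray h i) i) hj, mul_zero]
    have e2 : ∑ j, spray F 0 v j * pdy j (pdy i (fun x y => spray F x y i)) 0 v = 0 := by
      refine Finset.sum_eq_zero fun j _ => ?_
      rw [hspr, zero_mul]
    rw [e1, e2]
    ring
  rw [Finset.sum_congr rfl fun i _ => h4 i, Finset.sum_sub_distrib]
  congr 1
  · rw [Finset.sum_eq_single (0 : Fin (m + 1))]
    · intro i _ hi
      rw [dep_pdx (dep_spray h i) hi, mul_zero]
    · intro h5
      exact absurd (Finset.mem_univ _) h5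
  · rw [Finset.sum_comm]

end Pool.Agent.H85.FA
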